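import Pool.Agent.H534R3.UD

/-! # Words and cells -/

set_option autoImplicit false

namespace Pool.Agent.Run7.h614.NM

open Finset Filter Topology
open Pool.Agent.H534R3.UDist (UD ud_of_upper)

/-- the `n`-th digit of `x` in base `b` after the point -/
noncomputable def digit (b : ℕ) (x : ℝ) (n : ℕ) : ℤ := ⌊x * (b : ℝ) ^ n⌋ % b

/-- normality in base `b`: every word of length `k` has frequency `b ^ (-k)` -/
def Normal (b : ℕ) (x : ℝ) : Prop := ∀ k : ℕ, 0 < k → ∀ w : Fin k → Fin b,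
  Tendsto (fun N : ℕ => (((range N).filter fun i : ℕ =>
    ∀ j : Fin k, digit b x (i + 1 + j) = ((w j : ℕ) : ℤ)).card : ℝ) / (N : ℝ))
    atTop (𝓝 (1 / (b : ℝ) ^ k))

/-- the value of a word -/
def val (b : ℕ) (w : ℕ → ℕ) : ℕ → ℕ
  | 0 => 0
  | k + 1 => b * val b w k + w k

lemma val_lt {b : ℕ} (w : ℕ → ℕ) (k : ℕ) (hw : ∀ j < k, w j < b) : val b w k < b ^ k := by
  induction k with
  | zero => simp [val]
  | succ k ih =>
    have h1 := ih fun j hj => hw j (by omega)
    have h2 := hw k (by omega)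
    simp only [val]
    calc b * val b w k + w k < b * val b w k + b := by omega
      _ = b * (val b w k + 1) := by ring
      _ ≤ b * b ^ k := Nat.mul_le_mul_left _ h1
      _ = b ^ (k + 1) := by ring

lemma exists_val {b : ℕ} (k : ℕ) : ∀ a : ℕ, a < b ^ k →
    ∃ w : ℕ → ℕ, (∀ j < k, w j < b) ∧ val b w k = a := by
  induction k with
  | zero =>
    intro a ha
    refine ⟨fun _ => 0, fun j hj => absurd hj (by omega), ?_⟩
    simp only [pow_zero] at ha
    simp only [val]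
    omega
  | succ k ih =>
    intro a ha
    have hb : 0 < b := by
      rcases Nat.eq_zero_or_pos b with h | h
      · subst h
        simp at ha
      · exact h
    obtain ⟨w, hw, hv⟩ := ih (a / b) (by
      rw [Nat.div_lt_iff_lt_mul hb]
      calc a < b ^ (k + 1) := ha
        _ = b ^ k * b := pow_succ _ _)
    refine ⟨fun j => if j = k then a % b else w j, fun j hj => ?_, ?_⟩
    · simp only
      split_ifs with h
      · exact Nat.mod_lt _ hb
      · exact hw j (by omega)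
    · have h1 : ∀ l ≤ k, val b (fun j => if j = k then a % b else w j) l = val b w l := by
        intro l
        induction l with
        | zero => intro _; rfl
        | succ l ihl =>
          intro hl
          simp only [val]
          rw [ihl (by omega), if_neg (by omega)]
      simp only [val, if_true]
      rw [h1 k le_rfl, hv]
      exact Nat.div_add_mod a b

lemma word_iff {b : ℕ} (hb : 0 < b) (w : ℕ → ℕ) (y : ℝ) (k : ℕ) (hw : ∀ j < k, w j < b) :
    (∀ j < k, ⌊y * (b : ℝ) ^ (j + 1)⌋ % (b : ℤ) = ((w j : ℕ) : ℤ)) ↔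
      ⌊y * (b : ℝ) ^ k⌋ % ((b ^ k : ℕ) : ℤ) = ((val b w k : ℕ) : ℤ) := by
  induction k with
  | zero =>
    simp only [Nat.not_lt_zero, false_imp_iff, implies_true, pow_zero, Nat.cast_one, Int.emod_one,
      val, Nat.cast_zero]
  | succ k ih =>
    have ih' := ih fun j hj => hw j (by omega)
    have hbz : (0 : ℤ) < b := by exact_mod_cast hb
    have h1 : (∀ j < k + 1, ⌊y * (b : ℝ) ^ (j + 1)⌋ % (b : ℤ) = ((w j : ℕ) : ℤ)) ↔
        (∀ j < k, ⌊y * (b : ℝ) ^ (j + 1)⌋ % (b : ℤ) = ((w j : ℕ) : ℤ)) ∧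
          ⌊y * (b : ℝ) ^ (k + 1)⌋ % (b : ℤ) = ((w k : ℕ) : ℤ) := by
      constructor
      · intro h
        exact ⟨fun j hj => h j (by omega), h k (by omega)⟩
      · rintro ⟨h2, h3⟩ j hj
        rcases Nat.lt_succ_iff_lt_or_eq.1 hj with h | h
        · exact h2 j h
        · rw [h]
          exact h3
    rw [h1, ih']
    set M' := ⌊y * (b : ℝ) ^ (k + 1)⌋ with hM'
    have h2 : ⌊y * (b : ℝ) ^ k⌋ = M' / b := by
      rw [hM', ← Int.floor_div_natCast]
      congr 1
      have : (b : ℝ) ≠ 0 := by exact_mod_cast hb.ne'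
      rw [pow_succ]
      field_simp
    rw [h2]
    have h3 : M' % ((b ^ (k + 1) : ℕ) : ℤ) = b * ((M' / b) % ((b ^ k : ℕ) : ℤ)) + M' % b := by
      have h4 : (0 : ℤ) < ((b ^ k : ℕ) : ℤ) := by exact_mod_cast pow_pos hb k
      have h5 : M' = b * (M' / b) + M' % b := (Int.mul_ediv_add_emod M' b).symm
      have h6 : M' / b = ((b ^ k : ℕ) : ℤ) * ((M' / b) / ((b ^ k : ℕ) : ℤ)) +
        (M' / b) % ((b ^ k : ℕ) : ℤ) := (Int.mul_ediv_add_emod _ _).symm
      have h7 : M' = ((b ^ (k + 1) : ℕ) : ℤ) * ((M' / b) / ((b ^ k : ℕ) : ℤ)) +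
          (b * ((M' / b) % ((b ^ k : ℕ) : ℤ)) + M' % b) := by
        have : ((b ^ (k + 1) : ℕ) : ℤ) = b * ((b ^ k : ℕ) : ℤ) := by
          push_cast
          ring
        rw [this]
        linear_combination h5 + (b : ℤ) * h6
      have h8 := Int.emod_nonneg M' hbz.ne'
      have h9 := Int.emod_lt_of_pos M' hbz
      have h10 := Int.emod_nonneg (M' / b) h4.ne'
      have h11 := Int.emod_lt_of_pos (M' / b) h4
      conv_lhs => rw [h7]
      rw [Int.mul_add_emod_self_left]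
      apply Int.emod_eq_of_lt
      · positivity
      · have h12 : ((b ^ (k + 1) : ℕ) : ℤ) = b * ((b ^ k : ℕ) : ℤ) := by
          push_cast
          ring
        rw [h12]
        nlinarith
    rw [h3]
    simp only [val]
    push_cast
    have h13 := hw k (by omega)
    have h8 := Int.emod_nonneg M' hbz.ne'
    have h9 := Int.emod_lt_of_pos M' hbz
    have h13' : ((w k : ℕ) : ℤ) < b := by exact_mod_cast h13
    have h13'' : (0 : ℤ) ≤ ((w k : ℕ) : ℤ) := by positivity
    constructor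
    · rintro ⟨h14, h15⟩
      rw [h14, h15]
    · intro h14
      set u := M' / (b : ℤ) % (b : ℤ) ^ k with hu
      set v := M' % (b : ℤ) with hv
      have h15 : v = ((w k : ℕ) : ℤ) := by
        have h16 : (b * u + v) % b = (b * ((val b w k : ℕ) : ℤ) + ((w k : ℕ) : ℤ)) % b := by
          rw [h14]
        rw [Int.mul_add_emod_self_left, Int.mul_add_emod_self_left, Int.emod_eq_of_lt h8 h9,
          Int.emod_eq_of_lt h13'' h13'] at h16
        exact h16
      refine ⟨?_, h15⟩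
      rw [h15] at h14
      have h17 : (b : ℤ) * u = b * ((val b w k : ℕ) : ℤ) := by linarith
      exact mul_left_cancel₀ hbz.ne' h17

lemma floor_iff {b : ℕ} (hb : 0 < b) (y : ℝ) (k a : ℕ) (ha : a < b ^ k) :
    ⌊y * (b : ℝ) ^ k⌋ % ((b ^ k : ℕ) : ℤ) = ((a : ℕ) : ℤ) ↔
      (a : ℝ) / (b : ℝ) ^ k ≤ Int.fract y ∧ Int.fract y < ((a : ℝ) + 1) / (b : ℝ) ^ k := by
  have hbr : (0 : ℝ) < (b : ℝ) ^ k := by positivity
  have hbz : (0 : ℤ) < ((b ^ k : ℕ) : ℤ) := by exact_mod_cast pow_pos hb k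
  have h1 : y * (b : ℝ) ^ k = Int.fract y * (b : ℝ) ^ k + ((((b ^ k : ℕ) : ℤ) * ⌊y⌋ : ℤ) : ℝ) := by
    have := Int.fract_add_floor y
    push_cast
    calc y * (b : ℝ) ^ k = (Int.fract y + ⌊y⌋) * (b : ℝ) ^ k := by rw [this]
      _ = _ := by ring
  have h2 : ⌊y * (b : ℝ) ^ k⌋ % ((b ^ k : ℕ) : ℤ) = ⌊Int.fract y * (b : ℝ) ^ k⌋ := by
    rw [h1, Int.floor_add_intCast, Int.add_mul_emod_self_left]
    apply Int.emod_eq_of_lt
    · apply Int.floor_nonneg.2
      exact mul_nonneg (Int.fract_nonneg _) hbr.le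
    · rw [Int.floor_lt]
      push_cast
      calc Int.fract y * (b : ℝ) ^ k < 1 * (b : ℝ) ^ k :=
            mul_lt_mul_of_pos_right (Int.fract_lt_one y) hbr
        _ = _ := one_mul _
  rw [h2, Int.floor_eq_iff, div_le_iff₀ hbr, lt_div_iff₀ hbr]
  push_cast
  rfl

/-- words are cells -/
lemma word_cell {b : ℕ} (hb : 0 < b) (x : ℝ) (i k : ℕ) (w : ℕ → ℕ) (hw : ∀ j < k, w j < b) :
    (∀ j : Fin k, digit b x (i + 1 + j) = ((w j : ℕ) : ℤ)) ↔
      ((val b w k : ℕ) : ℝ) / (b : ℝ) ^ k ≤ Int.fract ((b : ℝ) ^ i * x) ∧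
        Int.fract ((b : ℝ) ^ i * x) < (((val b w k : ℕ) : ℝ) + 1) / (b : ℝ) ^ k := by
  rw [← floor_iff hb _ k _ (val_lt w k hw), ← word_iff hb w _ k hw]
  constructor
  · intro h j hj
    have h1 := h ⟨j, hj⟩
    unfold digit at h1
    rw [← h1]
    congr 2
    ring
  · intro h j
    have h1 := h j j.2
    unfold digit
    rw [← h1]
    congr 2
    ring

lemma tendsto_cell {b : ℕ} (hb : 0 < b) {x : ℝ} (h : Normal b x) (k a : ℕ) (hk : 0 < k)
    (ha : a < b ^ k) :
    Tendsto (fun N : ℕ => (((range N).filter fun i : ℕ =>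
      (a : ℝ) / (b : ℝ) ^ k ≤ Int.fract ((b : ℝ) ^ i * x) ∧
        Int.fract ((b : ℝ) ^ i * x) < ((a : ℝ) + 1) / (b : ℝ) ^ k).card : ℝ) / (N : ℝ))
      atTop (𝓝 (1 / (b : ℝ) ^ k)) := by
  obtain ⟨w, hw, hv⟩ := exists_val k a ha
  have h1 := h k hk fun j => ⟨w j, hw j j.2⟩
  refine h1.congr fun N => ?_
  congr 3
  ext i
  simp only [mem_filter, and_congr_right_iff]
  intro _
  have h2 := word_cell hb x i k w hw
  rw [hv] at h2
  exact h2

theorem ud_of_normal {b : ℕ} (hb : 2 ≤ b) {x : ℝ} (h : Normal b x) :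
    UD fun n => (b : ℝ) ^ n * x := by
  apply ud_of_upper
  intro s t η hs hst ht hη
  obtain ⟨k, hk⟩ : ∃ k : ℕ, 4 / η < (b : ℝ) ^ k :=
    pow_unbounded_of_one_lt _ (by exact_mod_cast (by omega : 1 < b))
  wlog hk0 : 0 < k generalizing k with H
  · refine H 1 ?_ one_pos
    have : k = 0 := by omega
    subst this
    calc 4 / η < (b : ℝ) ^ 0 := hk
      _ ≤ (b : ℝ) ^ 1 := pow_le_pow_right₀ (by exact_mod_cast (by omega : 1 ≤ b)) (by norm_num)
  set B : ℝ := (b : ℝ) ^ k with hB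
  have hb0 : (0 : ℝ) < b := by exact_mod_cast (by omega : 0 < b)
  have hB0 : 0 < B := by positivity
  have hBη : 4 < η * B := by
    rw [div_lt_iff₀ hη] at hk
    linarith
  -- the cells
  set S : Finset ℕ := (range (b ^ k)).filter fun a => s * B < (a : ℝ) + 1 ∧ (a : ℝ) < t * B with hS
  have hScard : (S.card : ℝ) ≤ (t - s) * B + 2 := by
    have h1 : S ⊆ Ico ⌊s * B⌋₊ (⌊t * B⌋₊ + 1) := by
      intro a ha
      rw [hS, mem_filter] at ha
      rw [mem_Ico]
      constructor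
      · have h2 : ⌊s * B⌋₊ < a + 1 := by
          rw [Nat.floor_lt (by positivity)]
          push_cast
          exact ha.2.1
        omega
      · have h2 : a ≤ ⌊t * B⌋₊ := Nat.le_floor ha.2.2.le
        omega
    have h2 := card_le_card h1
    rw [Nat.card_Ico] at h2
    have h3 : (⌊t * B⌋₊ : ℝ) ≤ t * B := Nat.floor_le (mul_nonneg (hs.trans hst) hB0.le)
    have h4 : s * B < ⌊s * B⌋₊ + 1 := Nat.lt_floor_add_one _
    have h5 : ⌊s * B⌋₊ ≤ ⌊t * B⌋₊ := Nat.floor_le_floor (mul_le_mul_of_nonneg_right hst hB0.le)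
    have h6 : (S.card : ℝ) ≤ (⌊t * B⌋₊ : ℝ) + 1 - ⌊s * B⌋₊ := by
      have h7 : S.card + ⌊s * B⌋₊ ≤ ⌊t * B⌋₊ + 1 := by omega
      have h8 : (S.card : ℝ) + ⌊s * B⌋₊ ≤ ⌊t * B⌋₊ + 1 := by exact_mod_cast h7
      linarith
    linarith
  have hcell : ∀ᶠ N : ℕ in atTop, ∀ a ∈ S, ((((range N).filter fun i : ℕ =>
      (a : ℝ) / (b : ℝ) ^ k ≤ Int.fract ((b : ℝ) ^ i * x) ∧
        Int.fract ((b : ℝ) ^ i * x) < ((a : ℝ) + 1) / (b : ℝ) ^ k).card : ℝ)) ≤
          (1 / B + 1 / B ^ 2) * N := by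
    rw [eventually_all_finset]
    intro a ha
    rw [hS, mem_filter, mem_range] at ha
    have h1 := (tendsto_cell (by omega) h k a hk0 ha.1).eventually (gt_mem_nhds
      (show 1 / (b : ℝ) ^ k < 1 / B + 1 / B ^ 2 by
        rw [hB]
        have : 0 < 1 / ((b : ℝ) ^ k) ^ 2 := by positivity
        linarith))
    filter_upwards [h1, eventually_gt_atTop 0] with N h2 h3
    have hN : (0 : ℝ) < N := by exact_mod_cast h3
    rw [div_lt_iff₀ hN] at h2
    exact h2.le
  filter_upwards [hcell] with N hN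
  have h1 : (Pool.Agent.H534R3.UDist.cnt (fun n => (b : ℝ) ^ n * x) s t N : ℝ) ≤
      ∑ a ∈ S, (((range N).filter fun i : ℕ =>
      (a : ℝ) / (b : ℝ) ^ k ≤ Int.fract ((b : ℝ) ^ i * x) ∧
        Int.fract ((b : ℝ) ^ i * x) < ((a : ℝ) + 1) / (b : ℝ) ^ k).card : ℝ) := by
    rw [← Nat.cast_sum]
    apply Nat.cast_le.2
    unfold Pool.Agent.H534R3.UDist.cnt
    refine le_trans (card_le_card ?_) card_biUnion_le
    intro i hi
    rw [mem_filter] at hi
    rw [mem_biUnion]
    obtain ⟨hi1, hi2, hi3⟩ := hi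
    set f := Int.fract ((b : ℝ) ^ i * x) with hf
    have hf0 : 0 ≤ f := Int.fract_nonneg _
    have hf1 : f < 1 := Int.fract_lt_one _
    refine ⟨⌊f * B⌋₊, ?_, ?_⟩
    · rw [hS, mem_filter, mem_range]
      have h2 : (⌊f * B⌋₊ : ℝ) ≤ f * B := Nat.floor_le (by positivity)
      have h3 : f * B < ⌊f * B⌋₊ + 1 := Nat.lt_floor_add_one _
      refine ⟨?_, ?_, ?_⟩
      · rw [Nat.floor_lt (by positivity)]
        push_cast
        rw [← hB]
        nlinarith
      · nlinarith
      · nlinarith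
    · rw [mem_filter]
      refine ⟨hi1, ?_, ?_⟩
      · rw [div_le_iff₀ hB0]
        exact Nat.floor_le (by positivity)
      · rw [lt_div_iff₀ hB0]
        exact Nat.lt_floor_add_one _
  refine h1.trans ?_
  calc _ ≤ ∑ a ∈ S, (1 / B + 1 / B ^ 2) * N := sum_le_sum fun a ha => hN a ha
    _ = (S.card : ℝ) * ((1 / B + 1 / B ^ 2) * N) := by rw [sum_const, nsmul_eq_mul]
    _ ≤ ((t - s) * B + 2) * ((1 / B + 1 / B ^ 2) * N) :=
        mul_le_mul_of_nonneg_right hScard (by positivity)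
    _ = (((t - s) * B + 2) * (1 / B + 1 / B ^ 2)) * N := by ring
    _ ≤ (t - s + η) * N := by
        apply mul_le_mul_of_nonneg_right _ (Nat.cast_nonneg _)
        have h2 : ((t - s) * B + 2) * (1 / B + 1 / B ^ 2) =
            (t - s) + ((t - s) + 2) / B + 2 / B ^ 2 := by
          field_simp
          ring
        have hB1 : 1 ≤ B := by
          rw [hB]
          exact one_le_pow₀ (by exact_mod_cast (by omega : 1 ≤ b))
        have hts : t - s ≤ 1 := by linarith
        have h3 : ((t - s) + 2) / B ≤ 3 / B := div_le_div_of_nonneg_right (by linarith) hB0.le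
        have h4 : 2 / B ^ 2 ≤ 1 / B := by
          rw [div_le_div_iff₀ (by positivity) hB0]
          have h5 : 2 ≤ B := by
            rw [hB]
            calc (2 : ℝ) ≤ b := by exact_mod_cast hb
              _ = (b : ℝ) ^ 1 := (pow_one _).symm
              _ ≤ (b : ℝ) ^ k := pow_le_pow_right₀ (by exact_mod_cast (by omega : 1 ≤ b)) hk0
          nlinarith
        have h5 : 4 / B < η := by
          rw [div_lt_iff₀ hB0]
          exact hBη
        have h6 : 3 / B + 1 / B = 4 / B := by ring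
        rw [h2]
        linarith

theorem normal_of_ud {b : ℕ} (hb : 2 ≤ b) {x : ℝ} (h : UD fun n => (b : ℝ) ^ n * x) :
    Normal b x := by
  intro k hk w
  set v : ℕ → ℕ := fun j => if hj : j < k then (w ⟨j, hj⟩ : ℕ) else 0 with hv
  have hvb : ∀ j < k, v j < b := by
    intro j hj
    rw [hv]
    simp only [hj, dif_pos]
    exact (w ⟨j, hj⟩).2
  have hB : (0 : ℝ) < (b : ℝ) ^ k := by
    have : (0 : ℝ) < b := by exact_mod_cast (by omega : 0 < b)
    positivity
  have hlt := val_lt v k hvb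
  have h1 := h (((val b v k : ℕ) : ℝ) / (b : ℝ) ^ k) ((((val b v k : ℕ) : ℝ) + 1) / (b : ℝ) ^ k)
    (by positivity) (div_le_div_of_nonneg_right (by linarith) hB.le) (by
      rw [div_le_one hB]
      exact_mod_cast hlt)
  have e : (((val b v k : ℕ) : ℝ) + 1) / (b : ℝ) ^ k - ((val b v k : ℕ) : ℝ) / (b : ℝ) ^ k =
      1 / (b : ℝ) ^ k := by ring
  rw [e] at h1
  refine h1.congr fun N => ?_
  congr 3
  ext i
  simp only [mem_filter, and_congr_right_iff]
  intro _
  rw [← word_cell (by omega) x i k v hvb]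
  refine forall_congr' fun j => ?_
  rw [hv]
  simp only [j.2, dif_pos]

theorem normal_iff_ud {b : ℕ} (hb : 2 ≤ b) (x : ℝ) :
    Normal b x ↔ UD fun n => (b : ℝ) ^ n * x := ⟨ud_of_normal hb, normal_of_ud hb⟩

end Pool.Agent.Run7.h614.NM
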