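import Pool.Agent.Run7.h614.NM.Near

/-! # Digits of multiples, and the finite form -/

set_option autoImplicit false

namespace Pool.Agent.Run7.h614.NM

open Finset Filter Topology
open Pool.Agent.H534R3.UDist (UD)
open Pool.Agent.H807R2.Dav (ee)
open scoped Real

lemma digit_floor {b : ℕ} (hb : 0 < b) (x : ℝ) (i : ℕ) :
    digit b x (i + 1) = ⌊Int.fract ((b : ℝ) ^ i * x) * b⌋ := by
  have hbr : (0 : ℝ) < b := by exact_mod_cast hb
  have hbz : (0 : ℤ) < b := by exact_mod_cast hb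
  unfold digit
  set y := (b : ℝ) ^ i * x with hy
  have h1 : x * (b : ℝ) ^ (i + 1) = Int.fract y * b + (((b : ℤ) * ⌊y⌋ : ℤ) : ℝ) := by
    have h2 : x * (b : ℝ) ^ (i + 1) = y * b := by rw [hy]; ring
    rw [h2]
    have h3 := Int.fract_add_floor y
    push_cast
    calc y * b = (Int.fract y + ⌊y⌋) * b := by rw [h3]
      _ = _ := by ring
  rw [h1, Int.floor_add_intCast, Int.add_mul_emod_self_left]
  apply Int.emod_eq_of_lt
  · exact Int.floor_nonneg.2 (mul_nonneg (Int.fract_nonneg _) hbr.le)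
  · rw [Int.floor_lt]
    push_cast
    calc Int.fract y * (b : ℝ) < 1 * b := mul_lt_mul_of_pos_right (Int.fract_lt_one y) hbr
      _ = _ := one_mul _

lemma changes_iff (x : ℝ) (i : ℕ) : digit 2 x (i + 1) ≠ digit 2 x (i + 2) ↔
    ((1 : ℕ) : ℝ) / (4 : ℕ) ≤ Int.fract (((2 : ℕ) : ℝ) ^ i * x) ∧
      Int.fract (((2 : ℕ) : ℝ) ^ i * x) < 1 - ((1 : ℕ) : ℝ) / (4 : ℕ) := by
  have h1 := word_cell (b := 2) (by norm_num) x i 2 (fun j => if j = 0 then 0 else 1)
    (by intro j _; split_ifs <;> norm_num)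
  have h2 := word_cell (b := 2) (by norm_num) x i 2 (fun j => if j = 0 then 1 else 0)
    (by intro j _; split_ifs <;> norm_num)
  have e1 : val 2 (fun j => if j = 0 then 0 else 1) 2 = 1 := by simp [val]
  have e2 : val 2 (fun j => if j = 0 then 1 else 0) 2 = 2 := by simp [val]
  rw [e1] at h1
  rw [e2] at h2
  rw [Fin.forall_fin_two] at h1 h2
  simp only [Fin.val_zero, Fin.val_one, add_zero, if_true, if_neg (by norm_num : ¬ (1 = 0))] at h1 h2
  have hd : ∀ n, digit 2 x n = 0 ∨ digit 2 x n = 1 := by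
    intro n
    unfold digit
    push_cast
    omega
  have h3 : digit 2 x (i + 1) ≠ digit 2 x (i + 2) ↔
      (digit 2 x (i + 1) = ((0 : ℕ) : ℤ) ∧ digit 2 x (i + 1 + 1) = ((1 : ℕ) : ℤ)) ∨
      (digit 2 x (i + 1) = ((1 : ℕ) : ℤ) ∧ digit 2 x (i + 1 + 1) = ((0 : ℕ) : ℤ)) := by
    rcases hd (i + 1) with h4 | h4 <;> rcases hd (i + 2) with h5 | h5 <;>
      simp [h4, h5, show i + 1 + 1 = i + 2 from rfl]
  rw [h3, h1, h2]
  push_cast
  constructor
  · rintro (⟨h4, h5⟩ | ⟨h4, h5⟩)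
    · constructor <;> norm_num at h4 h5 ⊢ <;> linarith
    · constructor <;> norm_num at h4 h5 ⊢ <;> linarith
  · rintro ⟨h4, h5⟩
    rcases lt_or_ge (Int.fract ((2 : ℝ) ^ i * x)) (1 / 2) with h6 | h6
    · left
      constructor <;> norm_num at h4 h5 ⊢ <;> linarith
    · right
      constructor <;> norm_num at h4 h5 ⊢ <;> linarith

lemma ternary_iff (x : ℝ) (i : ℕ) : digit 3 x (i + 1) = 1 ↔
    ((1 : ℕ) : ℝ) / (3 : ℕ) ≤ Int.fract (((3 : ℕ) : ℝ) ^ i * x) ∧
      Int.fract (((3 : ℕ) : ℝ) ^ i * x) < 1 - ((1 : ℕ) : ℝ) / (3 : ℕ) := by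
  rw [digit_floor (by norm_num), Int.floor_eq_iff]
  push_cast
  constructor
  · rintro ⟨h1, h2⟩
    constructor <;> linarith
  · rintro ⟨h1, h2⟩
    constructor <;> linarith

lemma decimal_two (x : ℝ) (i : ℕ) : (digit 10 x (i + 1) = 4 ∨ digit 10 x (i + 1) = 5) ↔
    ((2 : ℕ) : ℝ) / (5 : ℕ) ≤ Int.fract (((10 : ℕ) : ℝ) ^ i * x) ∧
      Int.fract (((10 : ℕ) : ℝ) ^ i * x) < 1 - ((2 : ℕ) : ℝ) / (5 : ℕ) := by
  have h0 : (digit 10 x (i + 1) = 4 ∨ digit 10 x (i + 1) = 5) ↔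
      4 ≤ digit 10 x (i + 1) ∧ digit 10 x (i + 1) < 6 := by omega
  rw [h0, digit_floor (by norm_num), Int.le_floor, Int.floor_lt]
  push_cast
  constructor
  · rintro ⟨h1, h2⟩
    constructor <;> linarith
  · rintro ⟨h1, h2⟩
    constructor <;> linarith

lemma decimal_four (x : ℝ) (i : ℕ) : ((digit 10 x (i + 1) = 2 ∨ digit 10 x (i + 1) = 3) ∨
    (digit 10 x (i + 1) = 4 ∨ digit 10 x (i + 1) = 5) ∨
    (digit 10 x (i + 1) = 6 ∨ digit 10 x (i + 1) = 7)) ↔
    ((1 : ℕ) : ℝ) / (5 : ℕ) ≤ Int.fract (((10 : ℕ) : ℝ) ^ i * x) ∧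
      Int.fract (((10 : ℕ) : ℝ) ^ i * x) < 1 - ((1 : ℕ) : ℝ) / (5 : ℕ) := by
  have h0 : ((digit 10 x (i + 1) = 2 ∨ digit 10 x (i + 1) = 3) ∨
    (digit 10 x (i + 1) = 4 ∨ digit 10 x (i + 1) = 5) ∨
    (digit 10 x (i + 1) = 6 ∨ digit 10 x (i + 1) = 7)) ↔
      2 ≤ digit 10 x (i + 1) ∧ digit 10 x (i + 1) < 8 := by omega
  rw [h0, digit_floor (by norm_num), Int.le_floor, Int.floor_lt]
  push_cast
  constructor
  · rintro ⟨h1, h2⟩
    constructor <;> linarith
  · rintro ⟨h1, h2⟩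
    constructor <;> linarith

lemma far_mul (b q m s N : ℕ) (x : ℝ) : far q N (fun n => m * ((b : ℝ) ^ n * x)) s =
    ((range N).filter fun n => (s : ℝ) / q ≤ Int.fract ((b : ℝ) ^ n * (m * x)) ∧
      Int.fract ((b : ℝ) ^ n * (m * x)) < 1 - (s : ℝ) / q).card := by
  unfold far
  congr 1
  ext n
  simp only [mem_filter, mul_left_comm (m : ℝ)]

open Classical in
/-- base 2: digit changes -/
theorem binary (x : ℝ) : Normal 2 x ↔ ∀ m : ℕ, 1 ≤ m →
    Tendsto (fun N : ℕ => (((range N).filter fun n : ℕ =>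
      digit 2 (m * x) (n + 1) ≠ digit 2 (m * x) (n + 2)).card : ℝ) / N) atTop (𝓝 (1 / 2)) := by
  have key : ∀ m N : ℕ, far 4 N (fun n => m * (((2 : ℕ) : ℝ) ^ n * x)) 1 =
      ((range N).filter fun n : ℕ =>
        digit 2 (m * x) (n + 1) ≠ digit 2 (m * x) (n + 2)).card := by
    intro m N
    rw [far_mul]
    congr 1
    ext n
    simp only [mem_filter, changes_iff]
  rw [normal_iff_ud (by norm_num), ud_iff_far (q := 4) (by norm_num) (by norm_num)]
  constructor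
  · intro h m hm
    have h1 := h m hm 1 le_rfl (by norm_num)
    simp only [key] at h1
    have e : (1 : ℝ) - 2 * ((1 : ℕ) : ℝ) / ((4 : ℕ) : ℝ) = 1 / 2 := by norm_num
    rw [e] at h1
    exact h1
  · intro h m hm s hs1 hs
    have hs' : s = 1 := by omega
    subst hs'
    simp only [key]
    have e : (1 : ℝ) - 2 * ((1 : ℕ) : ℝ) / ((4 : ℕ) : ℝ) = 1 / 2 := by norm_num
    rw [e]
    exact h m hm

open Classical in
/-- base 3: the digit 1 -/
theorem ternary (x : ℝ) : Normal 3 x ↔ ∀ m : ℕ, 1 ≤ m →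
    Tendsto (fun N : ℕ => (((range N).filter fun n : ℕ =>
      digit 3 (m * x) (n + 1) = 1).card : ℝ) / N) atTop (𝓝 (1 / 3)) := by
  have key : ∀ m N : ℕ, far 3 N (fun n => m * (((3 : ℕ) : ℝ) ^ n * x)) 1 =
      ((range N).filter fun n : ℕ => digit 3 (m * x) (n + 1) = 1).card := by
    intro m N
    rw [far_mul]
    congr 1
    ext n
    simp only [mem_filter, ternary_iff]
  rw [normal_iff_ud (by norm_num), ud_iff_far (q := 3) (by norm_num) (by norm_num)]
  constructor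
  · intro h m hm
    have h1 := h m hm 1 le_rfl (by norm_num)
    simp only [key] at h1
    have e : (1 : ℝ) - 2 * ((1 : ℕ) : ℝ) / ((3 : ℕ) : ℝ) = 1 / 3 := by norm_num
    rw [e] at h1
    exact h1
  · intro h m hm s hs1 hs
    have hs' : s = 1 := by omega
    subst hs'
    simp only [key]
    have e : (1 : ℝ) - 2 * ((1 : ℕ) : ℝ) / ((3 : ℕ) : ℝ) = 1 / 3 := by norm_num
    rw [e]
    exact h m hm

open Classical in
/-- base 10 -/
theorem decimal (x : ℝ) : Normal 10 x ↔ ∀ m : ℕ, 1 ≤ m →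
    Tendsto (fun N : ℕ => (((range N).filter fun n : ℕ =>
      digit 10 (m * x) (n + 1) = 4 ∨ digit 10 (m * x) (n + 1) = 5).card : ℝ) / N) atTop
      (𝓝 (1 / 5)) ∧
    Tendsto (fun N : ℕ => (((range N).filter fun n : ℕ =>
      (digit 10 (m * x) (n + 1) = 2 ∨ digit 10 (m * x) (n + 1) = 3) ∨
        (digit 10 (m * x) (n + 1) = 6 ∨ digit 10 (m * x) (n + 1) = 7)).card : ℝ) / N) atTop
      (𝓝 (2 / 5)) := by
  have k2 : ∀ m N : ℕ, far 5 N (fun n => m * (((10 : ℕ) : ℝ) ^ n * x)) 2 =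
      ((range N).filter fun n : ℕ =>
        digit 10 (m * x) (n + 1) = 4 ∨ digit 10 (m * x) (n + 1) = 5).card := by
    intro m N
    rw [far_mul]
    congr 1
    ext n
    simp only [mem_filter, decimal_two]
  have k1 : ∀ m N : ℕ, far 5 N (fun n => m * (((10 : ℕ) : ℝ) ^ n * x)) 1 =
      ((range N).filter fun n : ℕ =>
        digit 10 (m * x) (n + 1) = 4 ∨ digit 10 (m * x) (n + 1) = 5).card +
      ((range N).filter fun n : ℕ =>
        (digit 10 (m * x) (n + 1) = 2 ∨ digit 10 (m * x) (n + 1) = 3) ∨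
        (digit 10 (m * x) (n + 1) = 6 ∨ digit 10 (m * x) (n + 1) = 7)).card := by
    intro m N
    rw [far_mul, ← card_union_of_disjoint]
    · congr 1
      ext n
      rw [mem_filter, ← decimal_four, mem_union, mem_filter, mem_filter]
      tauto
    · rw [disjoint_filter]
      intro n _ h1 h2
      omega
  have e2 : (1 : ℝ) - 2 * ((2 : ℕ) : ℝ) / ((5 : ℕ) : ℝ) = 1 / 5 := by norm_num
  have e1 : (1 : ℝ) - 2 * ((1 : ℕ) : ℝ) / ((5 : ℕ) : ℝ) = 3 / 5 := by norm_num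
  rw [normal_iff_ud (by norm_num), ud_iff_far (q := 5) (by norm_num) (by norm_num)]
  constructor
  · intro h m hm
    have h1 := h m hm 1 le_rfl (by norm_num)
    have h2 := h m hm 2 (by norm_num) (by norm_num)
    simp only [k1] at h1
    simp only [k2] at h2
    rw [e1] at h1
    rw [e2] at h2
    refine ⟨h2, ?_⟩
    have h3 := h1.sub h2
    rw [show (3 : ℝ) / 5 - 1 / 5 = 2 / 5 by norm_num] at h3
    refine h3.congr fun N => ?_
    push_cast
    ring
  · intro h m hm s hs1 hs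
    obtain ⟨h1, h2⟩ := h m hm
    have hs' : s = 1 ∨ s = 2 := by omega
    rcases hs' with rfl | rfl
    · simp only [k1]
      rw [e1]
      have h3 := h1.add h2
      rw [show (1 : ℝ) / 5 + 2 / 5 = 3 / 5 by norm_num] at h3
      refine h3.congr fun N => ?_
      push_cast
      ring
    · simp only [k2]
      rw [e2]
      exact h1

/-- **The finite form.** -/
theorem finite_form (b : ℕ) {q : ℕ} (hq : 3 ≤ q) (A : ℕ) : ∃ C : ℝ, 0 < C ∧
    ∀ (x : ℝ) (N H M k : ℕ), 2 ≤ M → 1 ≤ k →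
      H * ‖∑ n ∈ range N, ee (k * ((b : ℝ) ^ n * x))‖ ≤ (H : ℝ) ^ 2 +
        √(N * ∑ h ∈ range H, ∑ h' ∈ range H, if h = h' then (N : ℝ) else
          C * N / Real.log M ^ A + q * ∑ j ∈ Icc 1 M, 1 / (j : ℝ) *
            sdev q N (fun n => j * ((k * ((b : ℝ) ^ h - (b : ℝ) ^ h')) * ((b : ℝ) ^ n * x)))) := by
  obtain ⟨C, hC0, hC⟩ := cos_ineq hq A
  refine ⟨C, hC0, fun x N H M k hM hk => ?_⟩
  refine (vdc b k x N H).trans ?_
  apply add_le_add le_rfl
  apply Real.sqrt_le_sqrt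
  apply mul_le_mul_of_nonneg_left _ (Nat.cast_nonneg _)
  refine sum_le_sum fun h _ => sum_le_sum fun h' _ => ?_
  split_ifs with hh
  · calc _ ≤ ∑ n ∈ range N, (1 : ℝ) := sum_le_sum fun n _ => Real.cos_le_one _
      _ = N := by simp
  · exact (le_abs_self _).trans (hC M hM N fun n =>
      (k * ((b : ℝ) ^ h - (b : ℝ) ^ h')) * ((b : ℝ) ^ n * x))

end Pool.Agent.Run7.h614.NM
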