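import Pool.Agent.Run7.h776.MS.Step

/-! # Cosine sums and symmetric cells -/

set_option autoImplicit false

namespace Pool.Agent.Run7.h614.NM

open Finset
open Pool.Agent.H807R2.Dav (ee norm_ee ee_add ee_zero ee_int ee_add_int ee_eq)
open Pool.Agent.Run7.h776.MS
open scoped Real

/-- the total deviation of the counts of the symmetric pairs of cells -/
noncomputable def sdev (q N : ℕ) (y : ℕ → ℝ) : ℝ :=
  ∑ d ∈ range q, |(cnt q N y d : ℝ) + (cnt q N (fun n => -y n) d : ℝ) - 2 * N / q|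

section

variable {b : ℕ} {g : ℕ → ℂ}

theorem sum_EE_sym (hb : 0 < b) (hg : PG b g) (N : ℕ) (x : ℕ → ℝ) :
    ‖∑ n ∈ range N, EE b g (x n) + ∑ n ∈ range N, EE b g (-x n)‖ ≤ 2 * b * sdev b N x := by
  have h1 : ∀ y : ℕ → ℝ, ∑ n ∈ range N, EE b g (y n) =
      ∑ d ∈ range b, (cnt b N y d : ℂ) * EE b g ((d : ℝ) / b) := by
    intro y
    rw [← sum_fiberwise_of_maps_to (s := range N) (t := range b) (g := fun n => dig b (y n))
      (fun n _ => mem_range.2 (dig_lt hb _))]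
    refine sum_congr rfl fun d _ => ?_
    unfold cnt
    rw [← nsmul_eq_mul, ← sum_const]
    refine sum_congr rfl fun n hn => ?_
    rw [mem_filter] at hn
    rw [EE_step hb hg, hn.2]
  have h2 : ∑ n ∈ range N, EE b g (x n) + ∑ n ∈ range N, EE b g (-x n) =
      ∑ d ∈ range b, (((cnt b N x d : ℝ) + (cnt b N (fun n => -x n) d : ℝ) - 2 * N / b : ℝ) : ℂ) *
        EE b g ((d : ℝ) / b) := by
    rw [h1 x, h1 fun n => -x n, ← sum_add_distrib]
    have h3 : ∑ d ∈ range b, (2 * (N : ℂ) / b) * EE b g ((d : ℝ) / b) = 0 := by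
      rw [← mul_sum, EE_sum hb hg, mul_zero]
    rw [← sub_zero (∑ d ∈ range b, ((cnt b N x d : ℂ) * EE b g ((d : ℝ) / b) +
      (cnt b N (fun n => -x n) d : ℂ) * EE b g ((d : ℝ) / b))), ← h3, ← sum_sub_distrib]
    refine sum_congr rfl fun d _ => ?_
    push_cast
    ring
  rw [h2]
  refine (norm_sum_le _ _).trans ?_
  unfold sdev
  rw [mul_sum]
  refine sum_le_sum fun d _ => ?_
  rw [norm_mul, Complex.norm_real, Real.norm_eq_abs, mul_comm]
  exact mul_le_mul_of_nonneg_right (EE_norm hb hg _) (abs_nonneg _)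

theorem sum_DD_sym (hb : 0 < b) (hg : PG b g) (M N : ℕ) (x : ℕ → ℝ) :
    ‖∑ n ∈ range N, DD b g M (x n) + ∑ n ∈ range N, DD b g M (-x n)‖ ≤
      2 * b * ∑ j ∈ Icc 1 M, 1 / (j : ℝ) * sdev b N (fun n => j * x n) := by
  have h0 : ∑ n ∈ range N, DD b g M (x n) + ∑ n ∈ range N, DD b g M (-x n) =
      ∑ j ∈ Icc 1 M, mu j * g j / j * (∑ n ∈ range N, EE b g (j * x n) +
        ∑ n ∈ range N, EE b g (-(j * x n))) := by
    unfold DD
    rw [sum_comm, sum_comm (s := range N), ← sum_add_distrib]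
    refine sum_congr rfl fun j _ => ?_
    rw [← mul_sum, ← mul_sum, ← mul_add]
    congr 2
    refine sum_congr rfl fun n _ => ?_
    rw [mul_neg]
  rw [h0, mul_sum]
  refine (norm_sum_le _ _).trans (sum_le_sum fun j hj => ?_)
  rw [norm_mul]
  rw [mem_Icc] at hj
  have hj0 : (0 : ℝ) < j := by exact_mod_cast hj.1
  have h1 : ‖mu j * g j / j‖ ≤ 1 / j := by
    rw [norm_div, Complex.norm_natCast, norm_mul]
    exact div_le_div_of_nonneg_right (mul_le_one₀ (mu_norm j) (norm_nonneg _) (hg.norm j)) hj0.le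
  calc _ ≤ 1 / (j : ℝ) * (2 * b * sdev b N (fun n => j * x n)) :=
        mul_le_mul h1 (sum_EE_sym hb hg N fun n => j * x n) (norm_nonneg _) (by positivity)
    _ = _ := by ring

end

lemma cos_eq_ee (y : ℝ) : ((Real.cos (2 * π * y) : ℝ) : ℂ) = (ee y + ee (-y)) / 2 := cos_ee y

/-- **The finite inequality for the cosine sums.** -/
theorem cos_ineq {q : ℕ} (hq : 3 ≤ q) (A : ℕ) : ∃ C : ℝ, 0 < C ∧ ∀ M : ℕ, 2 ≤ M → ∀ N : ℕ,
    ∀ x : ℕ → ℝ, |∑ n ∈ range N, Real.cos (2 * π * x n)| ≤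
      C * N / Real.log M ^ A + q * ∑ j ∈ Icc 1 M, 1 / (j : ℝ) * sdev q N (fun n => j * x n) := by
  have hq0 : 0 < q := by omega
  obtain ⟨χ, hχ⟩ := odd_char hq
  set g1 : ℕ → ℂ := fun n => χ (n : ZMod q) with hg1
  have P1 : PG q g1 := PG_char (by omega) χ
  have v1 : g1 (q - 1) = -1 := by
    rw [hg1]
    simp only
    rw [cast_pred (by omega), hχ]
  obtain ⟨C1, hC1, h1⟩ := approx hq0 P1 A
  refine ⟨C1, hC1, fun M hM N x => ?_⟩
  have hL0 : 0 < Real.log M := Real.log_pos (by exact_mod_cast (by omega : 1 < M))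
  have h3 : ∀ y : ℝ, ((Real.cos (2 * π * y) : ℝ) : ℂ) = Complex.I / 2 *
      (((ee y - g1 (q - 1) * ee (-y)) / (2 * Complex.I) - DD q g1 M y) +
       ((ee (-y) - g1 (q - 1) * ee (-(-y))) / (2 * Complex.I) - DD q g1 M (-y))) +
      Complex.I / 2 * (DD q g1 M y + DD q g1 M (-y)) := by
    intro y
    rw [v1, neg_neg, cos_eq_ee]
    have hI : Complex.I ≠ 0 := Complex.I_ne_zero
    field_simp
    ring
  have h4 : ((∑ n ∈ range N, Real.cos (2 * π * x n) : ℝ) : ℂ) =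
      Complex.I / 2 * (∑ n ∈ range N, ((ee (x n) - g1 (q - 1) * ee (-(x n))) / (2 * Complex.I) -
      DD q g1 M (x n)) + ∑ n ∈ range N, ((ee (-x n) - g1 (q - 1) * ee (-(-x n))) /
        (2 * Complex.I) - DD q g1 M (-x n))) +
      Complex.I / 2 * (∑ n ∈ range N, DD q g1 M (x n) + ∑ n ∈ range N, DD q g1 M (-x n)) := by
    rw [← sum_add_distrib, ← sum_add_distrib, mul_sum, mul_sum, ← sum_add_distrib,
      Complex.ofReal_sum]
    exact sum_congr rfl fun n _ => h3 (x n)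
  have h5 : ∀ y : ℕ → ℝ, ‖∑ n ∈ range N, ((ee (y n) - g1 (q - 1) * ee (-(y n))) /
      (2 * Complex.I) - DD q g1 M (y n))‖ ≤ N * (C1 / Real.log M ^ A) := by
    intro y
    refine (norm_sum_le _ _).trans ?_
    calc _ ≤ ∑ n ∈ range N, C1 / Real.log M ^ A := sum_le_sum fun n _ => h1 M hM (y n)
      _ = _ := by simp
  have h7 := sum_DD_sym hq0 P1 M N x
  have h8 := h5 x
  have h9 := h5 fun n => -x n
  have h10 : |∑ n ∈ range N, Real.cos (2 * π * x n)| =
      ‖((∑ n ∈ range N, Real.cos (2 * π * x n) : ℝ) : ℂ)‖ := by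
    rw [Complex.norm_real, Real.norm_eq_abs]
  rw [h10, h4]
  refine (norm_add_le _ _).trans ?_
  have hI2 : ‖Complex.I / 2‖ = 1 / 2 := by
    rw [norm_div, Complex.norm_I]
    norm_num
  rw [norm_mul, norm_mul, hI2]
  have h11 := norm_add_le (∑ n ∈ range N, ((ee (x n) - g1 (q - 1) * ee (-(x n))) /
      (2 * Complex.I) - DD q g1 M (x n))) (∑ n ∈ range N, ((ee (-x n) -
      g1 (q - 1) * ee (-(-x n))) / (2 * Complex.I) - DD q g1 M (-x n)))
  have h12 : C1 * N / Real.log M ^ A = N * (C1 / Real.log M ^ A) := by ring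
  rw [h12]
  linarith

end Pool.Agent.Run7.h614.NM
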