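import Pool.Agent.Run7.h614.NM.Refl
import Pool.Agent.Run7.h614.NM.Even
import Pool.Agent.Run7.h614.NM.Words
import Pool.Agent.Run7.h776.MS.Final

/-! # Distances to the nearest integer decide equidistribution of orbits -/

set_option autoImplicit false

namespace Pool.Agent.Run7.h614.NM

open Finset Filter Topology
open Pool.Agent.Run7.h776.MS (dig cnt cnt_eq dig_eq_iff ud_mul)
open Pool.Agent.H534R3.UDist (UD Weyl ud_of_weyl)
open scoped Real

/-- the number of the `n < N` with `{y n} < s / q` -/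
noncomputable def low (q N : ℕ) (y : ℕ → ℝ) (s : ℕ) : ℕ :=
  ((range N).filter fun n => Int.fract (y n) < (s : ℝ) / q).card

/-- the number of the `n < N` with `s / q ≤ {y n} < 1 - s / q` -/
noncomputable def far (q N : ℕ) (y : ℕ → ℝ) (s : ℕ) : ℕ :=
  ((range N).filter fun n => (s : ℝ) / q ≤ Int.fract (y n) ∧
    Int.fract (y n) < 1 - (s : ℝ) / q).card

/-- the number of the `n < N` for which the distance of `y n` to the nearest integer is `< s / q` -/
noncomputable def near (q N : ℕ) (y : ℕ → ℝ) (s : ℕ) : ℕ :=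
  ((range N).filter fun n => |y n - round (y n)| < (s : ℝ) / q).card

lemma low_succ {q : ℕ} (hq : 0 < q) (N : ℕ) (y : ℕ → ℝ) (d : ℕ) :
    low q N y (d + 1) = low q N y d + cnt q N y d := by
  have hqr : (0 : ℝ) < q := by exact_mod_cast hq
  rw [cnt_eq hq]
  unfold low
  rw [← card_union_of_disjoint]
  · congr 1
    ext n
    simp only [mem_filter, mem_union]
    push_cast
    have h1 : (d : ℝ) / q ≤ ((d : ℝ) + 1) / q := div_le_div_of_nonneg_right (by linarith) hqr.le
    constructor
    · rintro ⟨h2, h3⟩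
      rcases lt_or_ge (Int.fract (y n)) ((d : ℝ) / q) with h4 | h4
      · exact Or.inl ⟨h2, h4⟩
      · exact Or.inr ⟨h2, h4, h3⟩
    · rintro (⟨h2, h3⟩ | ⟨h2, h3, h4⟩)
      · exact ⟨h2, lt_of_lt_of_le h3 h1⟩
      · exact ⟨h2, h4⟩
  · rw [disjoint_filter]
    intro n _ h1 h2
    exact absurd h1 (not_lt.2 h2.1)

/-- the points are not multiples of `1 / q` -/
def Off (q : ℕ) (y : ℕ → ℝ) : Prop := ∀ (n : ℕ) (c : ℤ), (q : ℝ) * y n ≠ c

lemma Off.neg {q : ℕ} {y : ℕ → ℝ} (h : Off q y) : Off q fun n => -y n := by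
  intro n c hc
  apply h n (-c)
  push_cast
  linarith

lemma Off.fract_ne {q : ℕ} (hq : 0 < q) {y : ℕ → ℝ} (h : Off q y) (n s : ℕ) :
    Int.fract (y n) ≠ (s : ℝ) / q := by
  intro h1
  have hqr : (q : ℝ) ≠ 0 := by exact_mod_cast hq.ne'
  apply h n (s + q * ⌊y n⌋)
  have h2 := Int.fract_add_floor (y n)
  rw [h1] at h2
  push_cast
  rw [← h2]
  rw [mul_add, mul_div_cancel₀ _ hqr]
  congr 2
  rw [h2]

lemma Off.fract_neg {q : ℕ} (hq : 0 < q) {y : ℕ → ℝ} (h : Off q y) (n : ℕ) :
    Int.fract (-y n) = 1 - Int.fract (y n) := by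
  apply Int.fract_neg
  have := h.fract_ne hq n 0
  simpa using this

lemma low_compl {q : ℕ} (hq : 0 < q) {y : ℕ → ℝ} (h : Off q y) (N s : ℕ) (hs : s ≤ q) :
    low q N y s + low q N (fun n => -y n) (q - s) = N := by
  have hqr : (0 : ℝ) < q := by exact_mod_cast hq
  unfold low
  have h1 := card_filter_add_card_filter_not (s := range N)
    (fun n => Int.fract (y n) < (s : ℝ) / q)
  rw [card_range] at h1
  refine Eq.trans ?_ h1
  congr 2
  ext n
  simp only [mem_filter, not_lt, and_congr_right_iff]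
  intro _
  rw [h.fract_neg hq, Nat.cast_sub hs]
  have h2 := h.fract_ne hq n s
  have h3 : ((q : ℝ) - s) / q = 1 - (s : ℝ) / q := by
    field_simp
  rw [h3]
  constructor
  · intro h4
    linarith
  · intro h4
    have := lt_of_le_of_ne h4 (Ne.symm h2)
    linarith

lemma low_sum {q : ℕ} (hq : 0 < q) {y : ℕ → ℝ} (h : Off q y) (N s : ℕ) (hs : s ≤ q) :
    (low q N y s + low q N (fun n => -y n) s) +
      (low q N y (q - s) + low q N (fun n => -y n) (q - s)) = 2 * N := by
  have h1 := low_compl hq h N s hs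
  have h2 : low q N (fun n => -y n) s + low q N y (q - s) = N := by
    have h3 := low_compl hq h.neg N s hs
    have e : (fun n => - -y n) = y := by
      funext n
      exact neg_neg _
    rw [e] at h3
    exact h3
  omega

lemma far_low {q : ℕ} (hq : 0 < q) {y : ℕ → ℝ} (h : Off q y) (N s : ℕ) (hs : 2 * s ≤ q) :
    (low q N y s + low q N (fun n => -y n) s) + far q N y s = N := by
  have hqr : (0 : ℝ) < q := by exact_mod_cast hq
  have h0 : (s : ℝ) / q ≤ 1 - (s : ℝ) / q := by
    have h1 : 2 * (s : ℝ) ≤ q := by exact_mod_cast hs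
    have h2 : 2 * ((s : ℝ) / q) ≤ 1 := by
      rw [← mul_div_assoc, div_le_one hqr]
      exact h1
    linarith
  have e1 : (low q N y s : ℕ) + low q N (fun n => -y n) s =
      ((range N).filter fun n => ¬ ((s : ℝ) / q ≤ Int.fract (y n) ∧
        Int.fract (y n) < 1 - (s : ℝ) / q)).card := by
    unfold low
    rw [← card_union_of_disjoint]
    · congr 1
      ext n
      simp only [mem_filter, mem_union, not_and, not_lt]
      rw [h.fract_neg hq]
      have h3 := h.fract_ne hq n (q - s)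
      rw [Nat.cast_sub (by omega : s ≤ q)] at h3
      have h4 : ((q : ℝ) - s) / q = 1 - (s : ℝ) / q := by
        field_simp
      rw [h4] at h3
      constructor
      · rintro (⟨h5, h6⟩ | ⟨h5, h6⟩)
        · exact ⟨h5, fun h7 => absurd h6 (not_lt.2 h7)⟩
        · exact ⟨h5, fun _ => by linarith⟩
      · rintro ⟨h5, h6⟩
        rcases lt_or_ge (Int.fract (y n)) ((s : ℝ) / q) with h7 | h7
        · exact Or.inl ⟨h5, h7⟩
        · refine Or.inr ⟨h5, ?_⟩
          have := lt_of_le_of_ne (h6 h7) (Ne.symm h3)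
          linarith
    · rw [disjoint_filter]
      intro n _ h1 h2
      rw [h.fract_neg hq] at h2
      linarith
  rw [e1]
  unfold far
  rw [add_comm, card_filter_add_card_filter_not, card_range]

lemma near_low {q : ℕ} (hq : 0 < q) {y : ℕ → ℝ} (h : Off q y) (N s : ℕ) (hs : 2 * s ≤ q) :
    near q N y s = low q N y s + low q N (fun n => -y n) s := by
  have hqr : (0 : ℝ) < q := by exact_mod_cast hq
  have h0 : (s : ℝ) / q ≤ 1 - (s : ℝ) / q := by
    have h1 : 2 * (s : ℝ) ≤ q := by exact_mod_cast hs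
    have h2 : 2 * ((s : ℝ) / q) ≤ 1 := by
      rw [← mul_div_assoc, div_le_one hqr]
      exact h1
    linarith
  unfold near low
  rw [← card_union_of_disjoint]
  · congr 1
    ext n
    simp only [mem_filter, mem_union]
    rw [h.fract_neg hq, abs_sub_round_eq_min, min_lt_iff, and_or_left]
  · rw [disjoint_filter]
    intro n _ h1 h2
    rw [h.fract_neg hq] at h2
    linarith

/-- the distribution function -/
lemma tendsto_low {q : ℕ} (hq : 3 ≤ q) {y : ℕ → ℝ} (h : Off q y)
    (hT : ∀ s : ℕ, 1 ≤ s → 2 * s < q →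
      Tendsto (fun N : ℕ => (far q N y s : ℝ) / N) atTop (𝓝 (1 - 2 * s / q))) :
    ∀ s : ℕ, s ≤ q → Tendsto (fun N : ℕ => ((low q N y s : ℝ) + low q N (fun n => -y n) s) / N)
      atTop (𝓝 (2 * s / q)) := by
  have hq0 : 0 < q := by omega
  have hqr : (0 : ℝ) < q := by exact_mod_cast hq0
  have hone : Tendsto (fun N : ℕ => (N : ℝ) / N) atTop (𝓝 1) := by
    refine tendsto_const_nhds.congr' ?_
    filter_upwards [eventually_gt_atTop 0] with N hN
    have : (N : ℝ) ≠ 0 := by exact_mod_cast hN.ne'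
    exact (div_self this).symm
  have hsmall : ∀ s : ℕ, 2 * s < q →
      Tendsto (fun N : ℕ => ((low q N y s : ℝ) + low q N (fun n => -y n) s) / N)
      atTop (𝓝 (2 * s / q)) := by
    intro s hs
    rcases Nat.eq_zero_or_pos s with h0 | h0
    · subst h0
      have e : ∀ (z : ℕ → ℝ) (N : ℕ), low q N z 0 = 0 := by
        intro z N
        unfold low
        rw [card_eq_zero, filter_eq_empty_iff]
        intro n _ h1
        rw [Nat.cast_zero, zero_div] at h1
        exact absurd h1 (not_lt.2 (Int.fract_nonneg _))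
      simp only [e]
      simp
    · have h1 := hone.sub (hT s h0 hs)
      rw [sub_sub_cancel] at h1
      refine h1.congr fun N => ?_
      have h2 := far_low hq0 h N s hs.le
      have h3 : ((low q N y s : ℝ) + low q N (fun n => -y n) s) + far q N y s = N := by
        exact_mod_cast h2
      rw [← sub_div]
      congr 1
      linarith
  intro s hs
  rcases lt_trichotomy (2 * s) q with h1 | h1 | h1
  · exact hsmall s h1
  · have h2 : q - s = s := by omega
    have h3 : (2 : ℝ) * s / q = 1 := by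
      rw [div_eq_one_iff_eq hqr.ne']
      exact_mod_cast h1
    rw [h3]
    refine hone.congr fun N => ?_
    congr 1
    have h4 := low_sum hq0 h N s hs
    rw [h2] at h4
    have h5 : low q N y s + low q N (fun n => -y n) s = N := by omega
    exact_mod_cast h5.symm
  · have h2 : 2 * (q - s) < q := by omega
    have h3 := (hone.const_mul 2).sub (hsmall (q - s) h2)
    have h4 : 2 * 1 - 2 * ((q - s : ℕ) : ℝ) / q = 2 * s / q := by
      rw [Nat.cast_sub hs]
      field_simp
      ring
    rw [h4] at h3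
    refine h3.congr fun N => ?_
    have h5 := low_sum hq0 h N s hs
    have h6 : ((low q N y s : ℝ) + low q N (fun n => -y n) s) +
      ((low q N y (q - s) : ℝ) + low q N (fun n => -y n) (q - s)) = 2 * N := by exact_mod_cast h5
    rw [← mul_div_assoc, ← sub_div]
    congr 1
    linarith

lemma tendsto_sdev {q : ℕ} (hq : 3 ≤ q) {y : ℕ → ℝ} (h : Off q y)
    (hT : ∀ s : ℕ, 1 ≤ s → 2 * s < q →
      Tendsto (fun N : ℕ => (far q N y s : ℝ) / N) atTop (𝓝 (1 - 2 * s / q))) :
    Tendsto (fun N : ℕ => sdev q N y / N) atTop (𝓝 0) := by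
  have hq0 : 0 < q := by omega
  have hqr : (0 : ℝ) < q := by exact_mod_cast hq0
  have hl := tendsto_low hq h hT
  have h1 : Tendsto (fun N : ℕ => ∑ d ∈ range q,
      |((low q N y (d + 1) : ℝ) + low q N (fun n => -y n) (d + 1)) / N -
        ((low q N y d : ℝ) + low q N (fun n => -y n) d) / N - 2 / q|) atTop
      (𝓝 (∑ d ∈ range q, |2 * ((d + 1 : ℕ) : ℝ) / q - 2 * (d : ℝ) / q - 2 / q|)) := by
    apply tendsto_finsetSum
    intro d hd
    rw [mem_range] at hd
    exact (((hl (d + 1) (by omega)).sub (hl d (by omega))).sub_const _).abs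
  have h2 : ∑ d ∈ range q, |2 * ((d + 1 : ℕ) : ℝ) / q - 2 * (d : ℝ) / q - 2 / q| = 0 := by
    refine sum_eq_zero fun d _ => ?_
    rw [abs_eq_zero]
    push_cast
    ring
  rw [h2] at h1
  refine h1.congr' ?_
  filter_upwards [eventually_gt_atTop 0] with N hN
  have hN' : (0 : ℝ) < N := by exact_mod_cast hN
  unfold sdev
  rw [sum_div]
  refine sum_congr rfl fun d _ => ?_
  rw [low_succ hq0, low_succ hq0]
  have : ((cnt q N y d : ℝ) + (cnt q N (fun n => -y n) d : ℝ) - 2 * N / q) / N =
      (((low q N y d + cnt q N y d : ℕ) : ℝ) + ((low q N (fun n => -y n) d +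
        cnt q N (fun n => -y n) d : ℕ) : ℝ)) / N -
        ((low q N y d : ℝ) + low q N (fun n => -y n) d) / N - 2 / q := by
    push_cast
    field_simp
    ring
  rw [← this, abs_div, abs_of_pos hN']

/-- the means of the cosines -/
theorem cos_tendsto {q : ℕ} (hq : 3 ≤ q) (x : ℕ → ℝ)
    (h : ∀ m : ℕ, 1 ≤ m → Tendsto (fun N : ℕ => sdev q N (fun n => m * x n) / N) atTop (𝓝 0)) :
    ∀ ε : ℝ, 0 < ε → ∀ᶠ N : ℕ in atTop, ∑ n ∈ range N, Real.cos (2 * π * x n) ≤ ε * N := by
  obtain ⟨C, hC0, hC⟩ := cos_ineq hq 1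
  intro ε hε
  obtain ⟨M, hM2, hM⟩ : ∃ M : ℕ, 2 ≤ M ∧ C / Real.log M < ε / 2 := by
    have h1 : Tendsto (fun M : ℕ => C / Real.log M) atTop (𝓝 0) :=
      (Real.tendsto_log_atTop.comp tendsto_natCast_atTop_atTop).const_div_atTop C
    obtain ⟨M, hM⟩ := ((h1.eventually (gt_mem_nhds (half_pos hε))).and
      (eventually_ge_atTop 2)).exists
    exact ⟨M, hM.2, hM.1⟩
  have h2 : Tendsto (fun N : ℕ => q * ∑ j ∈ Icc 1 M, 1 / (j : ℝ) *
      (sdev q N (fun n => j * x n) / N)) atTop (𝓝 (q * ∑ j ∈ Icc 1 M, 1 / (j : ℝ) * 0)) := by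
    apply Tendsto.const_mul
    apply tendsto_finsetSum
    intro j hj
    rw [mem_Icc] at hj
    exact (h j hj.1).const_mul _
  simp only [mul_zero, sum_const_zero] at h2
  filter_upwards [h2.eventually (gt_mem_nhds (half_pos hε)), eventually_gt_atTop 0] with N h3 h4
  have hN' : (0 : ℝ) < N := by exact_mod_cast h4
  have h5 := (le_abs_self _).trans (hC M hM2 N x)
  rw [pow_one] at h5
  have h6 : C * N / Real.log M + q * ∑ j ∈ Icc 1 M, 1 / (j : ℝ) * sdev q N (fun n => j * x n) =
      (C / Real.log M + q * ∑ j ∈ Icc 1 M, 1 / (j : ℝ) * (sdev q N (fun n => j * x n) / N)) * N := by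
    rw [add_mul, mul_assoc (q : ℝ), sum_mul]
    congr 1
    · ring
    · congr 1
      refine sum_congr rfl fun j _ => ?_
      field_simp
  rw [h6] at h5
  refine h5.trans ?_
  apply mul_le_mul_of_nonneg_right _ hN'.le
  linarith

lemma off_irr {b q m : ℕ} (hb : 0 < b) (hq : 0 < q) (hm : 1 ≤ m) {x : ℝ} (hx : Irrational x) :
    Off q fun n => m * ((b : ℝ) ^ n * x) := by
  intro n c hc
  have h1 : (((q * m * b ^ n : ℕ) : ℝ) * x) = c := by
    rw [← hc]
    push_cast
    ring
  have h2 : (q * m * b ^ n : ℕ) ≠ 0 := by positivity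
  exact (hx.natCast_mul h2).ne_int c h1

/-- a rational number has an integral multiple -/
lemma rat_mul {x : ℝ} (hx : ¬ Irrational x) : ∃ m : ℕ, 1 ≤ m ∧ ∃ c : ℤ, (m : ℝ) * x = c := by
  rw [irrational_iff_ne_rational] at hx
  push Not at hx
  obtain ⟨a, b, hb, h⟩ := hx
  refine ⟨b.natAbs, Nat.one_le_iff_ne_zero.2 (Int.natAbs_ne_zero.2 hb), ?_⟩
  have hbr : (b : ℝ) ≠ 0 := by exact_mod_cast hb
  rcases Int.natAbs_eq b with h1 | h1
  · refine ⟨a, ?_⟩
    have h2 : ((b.natAbs : ℕ) : ℝ) = (b : ℝ) := by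
      have : ((b.natAbs : ℤ) : ℝ) = (b : ℝ) := by rw [← h1]
      simpa using this
    rw [h2, h]
    field_simp
  · refine ⟨-a, ?_⟩
    have h2 : ((b.natAbs : ℕ) : ℝ) = -(b : ℝ) := by
      have h3 : (b : ℝ) = ((-(b.natAbs : ℤ) : ℤ) : ℝ) := by rw [← h1]
      push_cast at h3
      rw [h3]
      simp
    rw [h2, h]
    push_cast
    field_simp

lemma fract_int_orbit {b m : ℕ} {x : ℝ} {c : ℤ} (hc : (m : ℝ) * x = c) (n : ℕ) :
    Int.fract ((m : ℝ) * ((b : ℝ) ^ n * x)) = 0 := by
  have h1 : (m : ℝ) * ((b : ℝ) ^ n * x) = (((b : ℤ) ^ n * c : ℤ) : ℝ) := by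
    push_cast
    rw [← hc]
    ring
  rw [h1, Int.fract_intCast]

lemma irr_of_ud {b : ℕ} {x : ℝ} (h : UD fun n => (b : ℝ) ^ n * x) : Irrational x := by
  by_contra hx
  obtain ⟨m, hm, c, hc⟩ := rat_mul hx
  have h1 := ud_mul h m hm (1 / 2) 1 (by norm_num) (by norm_num) le_rfl
  have h2 : ∀ N : ℕ, ((range N).filter fun n => 1 / 2 ≤ Int.fract ((m : ℝ) * ((b : ℝ) ^ n * x)) ∧
      Int.fract ((m : ℝ) * ((b : ℝ) ^ n * x)) < 1).card = 0 := by
    intro N
    rw [card_eq_zero, filter_eq_empty_iff]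
    intro n _ h3
    rw [fract_int_orbit hc] at h3
    norm_num at h3
  simp only [h2, Nat.cast_zero, zero_div] at h1
  have h3 := tendsto_nhds_unique h1 tendsto_const_nhds
  norm_num at h3

lemma ud_neg {y : ℕ → ℝ} (h : UD y) : UD fun n => -y n := by
  apply ud_of_weyl
  intro k hk
  have := Pool.Agent.N915.WT.weyl_int h (-(k : ℤ)) (by omega)
  refine this.congr fun N => ?_
  congr 2
  refine sum_congr rfl fun n _ => ?_
  congr 1
  push_cast
  ring

lemma low_of_ud {q : ℕ} (hq : 0 < q) {y : ℕ → ℝ} (h : UD y) (s : ℕ) (hs : s ≤ q) :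
    Tendsto (fun N : ℕ => (low q N y s : ℝ) / N) atTop (𝓝 (s / q)) := by
  have hqr : (0 : ℝ) < q := by exact_mod_cast hq
  have h1 := h 0 ((s : ℝ) / q) le_rfl (by positivity) (by
    rw [div_le_one hqr]
    exact_mod_cast hs)
  rw [sub_zero] at h1
  refine h1.congr fun N => ?_
  congr 2
  unfold low
  congr 1
  ext n
  simp only [mem_filter, and_congr_right_iff]
  intro _
  exact ⟨fun h => h.2, fun h => ⟨Int.fract_nonneg _, h⟩⟩

/-- **Main theorem**, with the central intervals. -/
theorem ud_iff_far {b q : ℕ} (hb : 2 ≤ b) (hq : 3 ≤ q) (x : ℝ) :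
    (UD fun n => (b : ℝ) ^ n * x) ↔ ∀ m : ℕ, 1 ≤ m → ∀ s : ℕ, 1 ≤ s → 2 * s < q →
      Tendsto (fun N : ℕ => (far q N (fun n => m * ((b : ℝ) ^ n * x)) s : ℝ) / N) atTop
        (𝓝 (1 - 2 * s / q)) := by
  have hq0 : 0 < q := by omega
  have hqr : (0 : ℝ) < q := by exact_mod_cast hq0
  have hone : Tendsto (fun N : ℕ => (N : ℝ) / N) atTop (𝓝 1) := by
    refine tendsto_const_nhds.congr' ?_
    filter_upwards [eventually_gt_atTop 0] with N hN
    have : (N : ℝ) ≠ 0 := by exact_mod_cast hN.ne'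
    exact (div_self this).symm
  constructor
  · intro h m hm s hs1 hs
    have hoff := off_irr (b := b) (by omega) hq0 hm (irr_of_ud h)
    have h1 := low_of_ud hq0 (ud_mul h m hm) s (by omega)
    have h2 := low_of_ud hq0 (ud_neg (ud_mul h m hm)) s (by omega)
    have h3 := hone.sub (h1.add h2)
    have e : (1 : ℝ) - ((s : ℝ) / q + (s : ℝ) / q) = 1 - 2 * s / q := by ring
    rw [e] at h3
    refine h3.congr fun N => ?_
    have h4 := far_low hq0 hoff N s hs.le
    have h5 : ((low q N (fun n => m * ((b : ℝ) ^ n * x)) s : ℝ) +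
      low q N (fun n => -(m * ((b : ℝ) ^ n * x))) s) +
        far q N (fun n => m * ((b : ℝ) ^ n * x)) s = N := by exact_mod_cast h4
    rw [← add_div, ← sub_div]
    congr 1
    linarith
  · intro h
    have hirr : Irrational x := by
      by_contra hx
      obtain ⟨m, hm, c, hc⟩ := rat_mul hx
      have h1 := h m hm 1 le_rfl (by omega)
      have h2 : ∀ N : ℕ, far q N (fun n => (m : ℝ) * ((b : ℝ) ^ n * x)) 1 = 0 := by
        intro N
        unfold far
        rw [card_eq_zero, filter_eq_empty_iff]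
        intro n _ h3
        rw [fract_int_orbit hc] at h3
        have : 0 < ((1 : ℕ) : ℝ) / q := by positivity
        linarith [h3.1]
      simp only [h2, Nat.cast_zero, zero_div] at h1
      have h3 := tendsto_nhds_unique h1 tendsto_const_nhds
      have h4 : 2 * ((1 : ℕ) : ℝ) / q < 1 := by
        rw [div_lt_one hqr]
        exact_mod_cast (by omega : 2 * 1 < q)
      linarith
    apply ud_of_weyl
    apply weyl_of_cos hb
    intro k hk
    apply cos_tendsto hq (fun n => k * ((b : ℝ) ^ n * x))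
    intro m hm
    have hmk : 1 ≤ m * k := Nat.one_le_iff_ne_zero.2 (Nat.mul_ne_zero (by omega) (by omega))
    have h1 := tendsto_sdev hq (off_irr (b := b) (by omega) hq0 hmk hirr)
      (fun s hs1 hs => h (m * k) hmk s hs1 hs)
    refine h1.congr fun N => ?_
    congr 2
    funext n
    push_cast
    ring

/-- **Main theorem**, with the distances to the nearest integer. -/
theorem ud_iff_near {b q : ℕ} (hb : 2 ≤ b) (hq : 3 ≤ q) (x : ℝ) :
    (UD fun n => (b : ℝ) ^ n * x) ↔ ∀ m : ℕ, 1 ≤ m → ∀ s : ℕ, 1 ≤ s → 2 * s < q →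
      Tendsto (fun N : ℕ => (near q N (fun n => m * ((b : ℝ) ^ n * x)) s : ℝ) / N) atTop
        (𝓝 (2 * s / q)) := by
  have hq0 : 0 < q := by omega
  have hqr : (0 : ℝ) < q := by exact_mod_cast hq0
  have hone : Tendsto (fun N : ℕ => (N : ℝ) / N) atTop (𝓝 1) := by
    refine tendsto_const_nhds.congr' ?_
    filter_upwards [eventually_gt_atTop 0] with N hN
    have : (N : ℝ) ≠ 0 := by exact_mod_cast hN.ne'
    exact (div_self this).symm
  have hkey : ∀ m : ℕ, 1 ≤ m → ∀ s : ℕ, 2 * s < q → Irrational x → ∀ N : ℕ,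
      (near q N (fun n => m * ((b : ℝ) ^ n * x)) s : ℝ) +
        far q N (fun n => m * ((b : ℝ) ^ n * x)) s = N := by
    intro m hm s hs hx N
    have hoff := off_irr (b := b) (by omega) hq0 hm hx
    have h4 := far_low hq0 hoff N s hs.le
    rw [← near_low hq0 hoff N s hs.le] at h4
    exact_mod_cast h4
  rw [ud_iff_far hb hq x]
  constructor
  · intro h m hm s hs1 hs
    have hx := irr_of_ud ((ud_iff_far hb hq x).2 h)
    have h1 := hone.sub (h m hm s hs1 hs)
    rw [sub_sub_cancel] at h1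
    refine h1.congr fun N => ?_
    rw [← sub_div]
    congr 1
    linarith [hkey m hm s hs hx N]
  · intro h
    have hirr : Irrational x := by
      by_contra hx
      obtain ⟨m, hm, c, hc⟩ := rat_mul hx
      have h1 := h m hm 1 le_rfl (by omega)
      have h2 : ∀ N : ℕ, near q N (fun n => (m : ℝ) * ((b : ℝ) ^ n * x)) 1 = N := by
        intro N
        unfold near
        rw [filter_true_of_mem, card_range]
        intro n _
        rw [abs_sub_round_eq_min, fract_int_orbit hc]
        have : 0 < ((1 : ℕ) : ℝ) / q := by positivity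
        simpa using this
      simp only [h2] at h1
      have h3 := tendsto_nhds_unique h1 hone
      have h4 : 2 * ((1 : ℕ) : ℝ) / q < 1 := by
        rw [div_lt_one hqr]
        exact_mod_cast (by omega : 2 * 1 < q)
      linarith
    intro m hm s hs1 hs
    have h1 := hone.sub (h m hm s hs1 hs)
    refine h1.congr fun N => ?_
    rw [← sub_div]
    congr 1
    linarith [hkey m hm s hs hirr N]

end Pool.Agent.Run7.h614.NM
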