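import Pool.Agent.H807R2.Dav1
import Pool.Agent.H534R3.UD

/-! # A one-sided Weyl criterion with cosines for the orbits `b ^ n x` -/

set_option autoImplicit false

namespace Pool.Agent.Run7.h614.NM

open Finset Filter Topology
open Pool.Agent.H807R2.Dav (ee norm_ee ee_add ee_zero ee_int ee_add_int ee_eq)
open Pool.Agent.H534R3.UDist (UD Weyl ud_of_weyl)
open scoped Real ComplexConjugate

lemma ee_re (t : ℝ) : (ee t).re = Real.cos (2 * π * t) := by
  rw [ee_eq, Complex.exp_ofReal_mul_I_re]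

lemma ee_conj (t : ℝ) : conj (ee t) = ee (-t) := by
  rw [ee_eq, ee_eq, ← Complex.exp_conj]
  congr 1
  rw [map_mul, Complex.conj_I, Complex.conj_ofReal]
  push_cast
  ring

/-- shift of the range of summation -/
lemma shift_sum (f : ℕ → ℂ) (hf : ∀ n, ‖f n‖ ≤ 1) (N h : ℕ) :
    ‖∑ n ∈ range N, f n - ∑ n ∈ range N, f (n + h)‖ ≤ 2 * h := by
  induction h with
  | zero => simp
  | succ h ih =>
    have h1 : ∑ n ∈ range N, f (n + h) - ∑ n ∈ range N, f (n + (h + 1)) = f h - f (N + h) := by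
      have h2 : ∑ n ∈ range (N + 1), f (n + h) = ∑ n ∈ range N, f (n + 1 + h) + f (0 + h) :=
        sum_range_succ' _ _
      have h3 : ∑ n ∈ range (N + 1), f (n + h) = ∑ n ∈ range N, f (n + h) + f (N + h) :=
        sum_range_succ _ _
      have h4 : ∑ n ∈ range N, f (n + (h + 1)) = ∑ n ∈ range N, f (n + 1 + h) := by
        refine sum_congr rfl fun n _ => ?_
        congr 1
        ring
      rw [h4]
      rw [zero_add] at h2
      rw [h2] at h3
      linear_combination -h3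
    have h5 : ∑ n ∈ range N, f n - ∑ n ∈ range N, f (n + (h + 1)) =
        (∑ n ∈ range N, f n - ∑ n ∈ range N, f (n + h)) + (f h - f (N + h)) := by
      rw [← h1]
      ring
    rw [h5]
    refine (norm_add_le _ _).trans ?_
    have h6 := norm_sub_le (f h) (f (N + h))
    have h7 := hf h
    have h8 := hf (N + h)
    push_cast
    linarith

lemma norm_sq_sum (H : ℕ) (t : ℕ → ℝ) :
    ‖∑ h ∈ range H, ee (t h)‖ ^ 2 =
      ∑ h ∈ range H, ∑ h' ∈ range H, Real.cos (2 * π * (t h - t h')) := by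
  have h1 : ((‖∑ h ∈ range H, ee (t h)‖ ^ 2 : ℝ) : ℂ) =
      ∑ h ∈ range H, ∑ h' ∈ range H, ee (t h - t h') := by
    rw [Complex.ofReal_pow, ← Complex.conj_mul', map_sum, mul_comm, sum_mul_sum]
    refine sum_congr rfl fun h _ => sum_congr rfl fun h' _ => ?_
    rw [ee_conj, ← ee_add, sub_eq_add_neg]
  have h2 := congrArg Complex.re h1
  rw [Complex.ofReal_re] at h2
  rw [h2, Complex.re_sum]
  refine sum_congr rfl fun h _ => ?_
  rw [Complex.re_sum]
  refine sum_congr rfl fun h' _ => ?_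
  rw [ee_re]

/-- **van der Corput's inequality for orbits, with cosines.** -/
theorem vdc (b : ℕ) (k x : ℝ) (N H : ℕ) :
    H * ‖∑ n ∈ range N, ee (k * (b ^ n * x))‖ ≤ (H : ℝ) ^ 2 + √(N * ∑ h ∈ range H, ∑ h' ∈ range H,
      ∑ n ∈ range N, Real.cos (2 * π * ((k * ((b : ℝ) ^ h - (b : ℝ) ^ h')) * (b ^ n * x)))) := by
  set f : ℕ → ℂ := fun n => ee (k * (b ^ n * x)) with hf
  set S := ∑ n ∈ range N, f n with hS
  set G : ℕ → ℂ := fun n => ∑ h ∈ range H, f (n + h) with hG
  have h1 : (H : ℂ) * S - ∑ n ∈ range N, G n =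
      ∑ h ∈ range H, (S - ∑ n ∈ range N, f (n + h)) := by
    rw [sum_sub_distrib, sum_const, card_range, nsmul_eq_mul, hG]
    congr 1
    exact sum_comm
  have h2 : ‖(H : ℂ) * S - ∑ n ∈ range N, G n‖ ≤ (H : ℝ) ^ 2 := by
    rw [h1]
    refine (norm_sum_le _ _).trans ?_
    calc ∑ h ∈ range H, ‖S - ∑ n ∈ range N, f (n + h)‖ ≤ ∑ h ∈ range H, 2 * (h : ℝ) :=
          sum_le_sum fun h _ => shift_sum f (fun n => (norm_ee _).le) N h
      _ ≤ (H : ℝ) ^ 2 := by
          rw [← mul_sum]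
          have : ∀ H : ℕ, 2 * ∑ i ∈ range H, (i : ℝ) ≤ (H : ℝ) ^ 2 := by
            intro H
            induction H with
            | zero => simp
            | succ H ih =>
              rw [sum_range_succ]
              push_cast
              nlinarith
          exact this H
  have h3 : ∀ n, ‖G n‖ ^ 2 = ∑ h ∈ range H, ∑ h' ∈ range H,
      Real.cos (2 * π * ((k * ((b : ℝ) ^ h - (b : ℝ) ^ h')) * (b ^ n * x))) := by
    intro n
    rw [hG, hf]
    simp only
    rw [norm_sq_sum H (fun h => k * ((b : ℝ) ^ (n + h) * x))]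
    refine sum_congr rfl fun h _ => sum_congr rfl fun h' _ => ?_
    congr 1
    rw [pow_add, pow_add]
    ring
  have h4 : ‖∑ n ∈ range N, G n‖ ≤ √(N * ∑ n ∈ range N, ‖G n‖ ^ 2) := by
    apply Real.le_sqrt_of_sq_le
    have h5 : ‖∑ n ∈ range N, G n‖ ≤ ∑ n ∈ range N, ‖G n‖ := norm_sum_le _ _
    have h6 : (∑ n ∈ range N, ‖G n‖) ^ 2 ≤ ((range N).card : ℝ) * ∑ n ∈ range N, ‖G n‖ ^ 2 :=
      sq_sum_le_card_mul_sum_sq
    rw [card_range] at h6
    exact (pow_le_pow_left₀ (norm_nonneg _) h5 2).trans h6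
  have h5 : ∑ n ∈ range N, ‖G n‖ ^ 2 = ∑ h ∈ range H, ∑ h' ∈ range H,
      ∑ n ∈ range N, Real.cos (2 * π * ((k * ((b : ℝ) ^ h - (b : ℝ) ^ h')) * (b ^ n * x))) := by
    rw [sum_congr rfl fun n _ => h3 n, sum_comm]
    refine sum_congr rfl fun h _ => ?_
    rw [sum_comm]
  rw [h5] at h4
  have h6 : (H : ℝ) * ‖S‖ = ‖(H : ℂ) * S‖ := by
    rw [norm_mul, Complex.norm_natCast]
  rw [h6]
  have h7 : ‖(H : ℂ) * S‖ ≤ ‖(H : ℂ) * S - ∑ n ∈ range N, G n‖ + ‖∑ n ∈ range N, G n‖ := by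
    have := norm_add_le ((H : ℂ) * S - ∑ n ∈ range N, G n) (∑ n ∈ range N, G n)
    rwa [sub_add_cancel] at this
  linarith

/-- **One-sided Weyl criterion for orbits.** If for every `m ≥ 1` the means of `cos (2 π m b ^ n x)`
have upper limit at most `0`, then the sequence `b ^ n x` is equidistributed modulo one. -/
theorem weyl_of_cos {b : ℕ} (hb : 2 ≤ b) (x : ℝ)
    (h : ∀ m : ℕ, 1 ≤ m → ∀ ε : ℝ, 0 < ε → ∀ᶠ N : ℕ in atTop,
      ∑ n ∈ range N, Real.cos (2 * π * (m * (b ^ n * x))) ≤ ε * N) :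
    Weyl fun n => (b : ℝ) ^ n * x := by
  intro k hk
  rw [Metric.tendsto_atTop]
  intro ε hε
  obtain ⟨H, hH0, hH⟩ : ∃ H : ℕ, 1 ≤ H ∧ 8 / ε ^ 2 < H := by
    obtain ⟨H, hH⟩ := exists_nat_gt (8 / ε ^ 2)
    refine ⟨H + 1, by omega, ?_⟩
    push_cast
    linarith
  have hHr : (0 : ℝ) < H := by exact_mod_cast hH0
  -- the off-diagonal terms
  have hoff : ∀ i j : ℕ, j < i → ∀ᶠ N : ℕ in atTop,
      ∑ n ∈ range N, Real.cos (2 * π * (((k : ℝ) * ((b : ℝ) ^ i - (b : ℝ) ^ j)) * (b ^ n * x))) ≤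
        1 / (H : ℝ) * N := by
    intro i j hij
    have hlt : b ^ j < b ^ i := Nat.pow_lt_pow_right (by omega) hij
    have h1 := h (k * (b ^ i - b ^ j)) (Nat.one_le_iff_ne_zero.2 (Nat.mul_ne_zero (by omega)
      (by omega))) (1 / (H : ℝ)) (by positivity)
    filter_upwards [h1] with N hN
    refine le_trans (le_of_eq ?_) hN
    refine sum_congr rfl fun n _ => ?_
    rw [Nat.cast_mul, Nat.cast_sub hlt.le]
    push_cast
    rfl
  have hall : ∀ i ∈ range H, ∀ j ∈ range H, ∀ᶠ N : ℕ in atTop,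
      ∑ n ∈ range N, Real.cos (2 * π * (((k : ℝ) * ((b : ℝ) ^ i - (b : ℝ) ^ j)) * (b ^ n * x))) ≤
        if i = j then (N : ℝ) else 1 / (H : ℝ) * N := by
    intro i _ j _
    rcases lt_trichotomy j i with hij | hij | hij
    · simp only [if_neg (show ¬ i = j by omega)]
      exact hoff i j hij
    · simp only [if_pos hij.symm]
      refine Eventually.of_forall fun N => ?_
      subst hij
      calc _ ≤ ∑ n ∈ range N, (1 : ℝ) := sum_le_sum fun n _ => Real.cos_le_one _
        _ = N := by simp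
    · simp only [if_neg (show ¬ i = j by omega)]
      filter_upwards [hoff j i hij] with N hN
      refine le_trans (le_of_eq ?_) hN
      refine sum_congr rfl fun n _ => ?_
      rw [← Real.cos_neg]
      congr 1
      ring
  have hall' : ∀ᶠ N : ℕ in atTop, ∀ i ∈ range H, ∀ j ∈ range H,
      ∑ n ∈ range N, Real.cos (2 * π * (((k : ℝ) * ((b : ℝ) ^ i - (b : ℝ) ^ j)) * (b ^ n * x))) ≤
        if i = j then (N : ℝ) else 1 / (H : ℝ) * N := by
    rw [eventually_all_finset]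
    intro i hi
    rw [eventually_all_finset]
    intro j hj
    exact hall i hi j hj
  have hbig : ∀ᶠ N : ℕ in atTop, 2 * H / ε < (N : ℝ) :=
    tendsto_natCast_atTop_atTop.eventually_gt_atTop _
  obtain ⟨N₀, hN₀⟩ := eventually_atTop.1 (hall'.and hbig)
  refine ⟨N₀, fun N hN => ?_⟩
  obtain ⟨h1, h2⟩ := hN₀ N hN
  have hN0 : (0 : ℝ) < N := lt_of_le_of_lt (by positivity) h2
  rw [Real.dist_eq, sub_zero, abs_of_nonneg (by positivity)]
  have h3 := vdc b k x N H
  have h4 : ∑ i ∈ range H, ∑ j ∈ range H, ∑ n ∈ range N,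
      Real.cos (2 * π * (((k : ℝ) * ((b : ℝ) ^ i - (b : ℝ) ^ j)) * (b ^ n * x))) ≤ 2 * H * N := by
    calc _ ≤ ∑ i ∈ range H, ∑ j ∈ range H, (if i = j then (N : ℝ) else 1 / (H : ℝ) * N) :=
          sum_le_sum fun i hi => sum_le_sum fun j hj => h1 i hi j hj
      _ ≤ ∑ i ∈ range H, ∑ j ∈ range H, ((if i = j then (N : ℝ) else 0) + 1 / (H : ℝ) * N) := by
          refine sum_le_sum fun i _ => sum_le_sum fun j _ => ?_
          have : 0 ≤ 1 / (H : ℝ) * N := by positivity
          split_ifs <;> linarith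
      _ = 2 * H * N := by
          simp only [sum_add_distrib, sum_ite_eq, sum_const, card_range, nsmul_eq_mul]
          have : ∑ i ∈ range H, (if i ∈ range H then (N : ℝ) else 0) = H * N := by
            rw [sum_congr rfl fun i hi => if_pos hi]
            simp
          rw [this]
          field_simp
          ring
  have h5 : √(N * ∑ i ∈ range H, ∑ j ∈ range H, ∑ n ∈ range N,
      Real.cos (2 * π * (((k : ℝ) * ((b : ℝ) ^ i - (b : ℝ) ^ j)) * (b ^ n * x)))) ≤
        ε / 2 * H * N := by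
    rw [Real.sqrt_le_left (by positivity)]
    calc _ ≤ (N : ℝ) * (2 * H * N) := mul_le_mul_of_nonneg_left h4 hN0.le
      _ ≤ (ε / 2 * H * N) ^ 2 := by
          have h6 : 8 ≤ ε ^ 2 * H := by
            rw [div_lt_iff₀ (by positivity)] at hH
            linarith
          have h7 : (0 : ℝ) ≤ H * N ^ 2 := by positivity
          nlinarith [mul_le_mul_of_nonneg_right h6 h7]
  have h8 : (H : ℝ) < ε / 2 * N := by
    rw [div_lt_iff₀ hε] at h2
    linarith
  rw [div_lt_iff₀ hN0]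
  have h9 : (H : ℝ) * ‖∑ n ∈ range N, ee (k * ((b : ℝ) ^ n * x))‖ < H * (ε * N) := by
    refine lt_of_le_of_lt h3 ?_
    nlinarith
  exact lt_of_mul_lt_mul_left h9 hHr.le

end Pool.Agent.Run7.h614.NM
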